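import Pool.Agent.W295.NL.Stm

set_option autoImplicit false

/-! Project NL: odd step, Moebius type. -/

namespace Pool.Agent.W271.NL.OM

open Pool.Agent.W295.NL

/-- the weights -/
def w (q : ℕ) (a : Fin 3) : ZMod q := if a = 2 then -2 else 1

theorem w_sum (q : ℕ) (a b c : Fin 3) (h1 : a ≠ b) (h2 : b ≠ c) (h3 : a ≠ c) :
    w q a + w q b + w q c = 0 := by
  unfold w
  fin_cases a <;> fin_cases b <;> fin_cases c <;> first
    | exact absurd rfl h1
    | exact absurd rfl h2
    | exact absurd rfl h3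
    | (simp; try norm_num)

theorem three (q : ℕ) (x y : Fin 3) (h : x ≠ y) (p r s : ZMod q) :
    (if (0 : Fin 3) = x then p else if (0 : Fin 3) = y then r else s) +
    (if (1 : Fin 3) = x then p else if (1 : Fin 3) = y then r else s) +
    (if (2 : Fin 3) = x then p else if (2 : Fin 3) = y then r else s) = p + r + s := by
  fin_cases x <;> fin_cases y <;> first
    | exact absurd rfl h
    | (simp; try ring)

theorem w_unit (q : ℕ) (hq : Odd q) (a : Fin 3) (k : ℕ) (h : (k : ZMod q) * w q a = 0) : q ∣ k := by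
  unfold w at h
  split_ifs at h with ha
  · have h1 : ((2 * k : ℕ) : ZMod q) = 0 := by
      push_cast
      linear_combination -h
    have h2 : q ∣ 2 * k := (ZMod.natCast_eq_zero_iff _ _).1 h1
    have h3 : Nat.Coprime q 2 := Nat.coprime_two_right.2 hq
    exact h3.dvd_of_dvd_mul_left h2
  · rw [mul_one] at h
    exact (ZMod.natCast_eq_zero_iff _ _).1 h

/-- the second coordinates -/
def S {q : ℕ} (κ : ℕ → Fin 3) (A B : ℕ → ZMod q) (a : Fin 3) (t : ℕ) : ZMod q :=
  if a = κ t then A t else if a = κ (t + 1) then A (t + 1) else B t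

theorem per_mul {α : Type} (g : ℕ → α) (m : ℕ) (h : ∀ t, g (t + m) = g t) (k t : ℕ) :
    g (t + m * k) = g t := by
  induction k with
  | zero => simp
  | succ k ih => rw [Nat.mul_succ, ← add_assoc, h, ih]

theorem per_mod {α : Type} (g : ℕ → α) (m : ℕ) (h : ∀ t, g (t + m) = g t) (s t : ℕ)
    (hst : s ≡ t [MOD m]) : g s = g t := by
  rcases le_total s t with hle | hle
  · obtain ⟨k, hk⟩ := (Nat.modEq_iff_dvd' hle).1 hst
    have : t = s + m * k := by omega
    rw [this, per_mul g m h]
  · obtain ⟨k, hk⟩ := (Nat.modEq_iff_dvd' hle).1 hst.symm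
    have : s = t + m * k := by omega
    rw [this, per_mul g m h]

theorem main : S_OM := by
  intro Q L n q hn hn0 hq X κ hX hκ hcl f A hA hF
  have hq0 : 0 < q := hq.pos
  have hA' : ∀ t, A (t + 2 * n) = A t + w q (κ t) := hA
  obtain ⟨r, hr⟩ := hq
  have hq' : Odd q := ⟨r, hr⟩
  set F : ℕ → ZMod q := fun t => f (X 0 t) (X 1 t) with hFd
  set B : ℕ → ZMod q := fun t => -F t - A t - A (t + 1) with hBd
  have hB0 : ∀ t, B t = -F t - A t - A (t + 1) := fun t => rfl
  have hFp : ∀ t, F (t + 2 * n) = F t := by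
    intro t
    simp only [hFd, hX.per]
  have hkp : ∀ t, κ (t + 2 * n) = κ t := hX.kper
  have hk1 : ∀ t, κ (t + 2 * n + 1) = κ (t + 1) := by
    intro t
    have h : t + 2 * n + 1 = t + 1 + 2 * n := by ring
    rw [h, hkp]
  have hSper : ∀ a t, S κ A B a (t + 2 * n) = S κ A B a t + w q a := by
    intro a t
    unfold S
    rw [hkp, hk1]
    have h1 : A (t + 2 * n + 1) = A (t + 1) + w q (κ (t + 1)) := by
      have h : t + 2 * n + 1 = t + 1 + 2 * n := by ring
      rw [h, hA']
    by_cases ha : a = κ t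
    · rw [if_pos ha, if_pos ha, hA', ← ha]
    · rw [if_neg ha, if_neg ha]
      by_cases hb : a = κ (t + 1)
      · rw [if_pos hb, if_pos hb, h1, ← hb]
      · rw [if_neg hb, if_neg hb, hB0, hB0, hFp, hA', h1]
        have h2 := w_sum q a (κ t) (κ (t + 1)) ha (hX.kne t) hb
        linear_combination -h2
  have hSmul : ∀ a t k, S κ A B a (t + 2 * n * k) = S κ A B a t + k * w q a := by
    intro a t k
    induction k with
    | zero => simp
    | succ k ih =>
      rw [Nat.mul_succ, ← add_assoc, hSper, ih]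
      push_cast
      ring
  have hK : ∀ a u u', u' ≡ u [MOD 2 * n] → S κ A B a u' = S κ A B a u →
      u' ≡ u [MOD 2 * (n * q)] := by
    have key : ∀ a u u', u ≤ u' → u' ≡ u [MOD 2 * n] → S κ A B a u' = S κ A B a u →
        u' ≡ u [MOD 2 * (n * q)] := by
      intro a u u' hle hmod hS
      obtain ⟨k, hk⟩ := (Nat.modEq_iff_dvd' hle).1 hmod.symm
      have hu' : u' = u + 2 * n * k := by omega
      rw [hu', hSmul] at hS
      have h1 : (k : ZMod q) * w q a = 0 := by linear_combination hS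
      obtain ⟨j, hj⟩ := w_unit q hq' a k h1
      refine ((Nat.modEq_iff_dvd' hle).2 ⟨j, ?_⟩).symm
      rw [hk, hj]
      ring
    intro a u u' hmod hS
    rcases le_total u u' with hle | hle
    · exact key a u u' hle hmod hS
    · exact (key a u' u hle hmod.symm hS.symm).symm
  have hnq : n * q = n + 2 * n * r := by rw [hr]; ring
  have hkn : ∀ t, κ (t + n * q) = κ t := fun t => per_mul κ n hκ q t
  have hBn : ∀ t, B (t + n * q) = B t := by
    intro t
    have h1 : F (t + n * q) = F (t + n) := by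
      rw [hnq, ← add_assoc]
      exact per_mul F (2 * n) hFp r (t + n)
    have h2 := hF t
    have h3 : t + n * q + 1 = t + 1 + n * q := by ring
    rw [hB0, hB0, h1, h3]
    have h4 : f (X 0 (t + n)) (X 1 (t + n)) = F (t + n) := rfl
    have h5 : f (X 0 t) (X 1 t) = F t := rfl
    rw [h4, h5] at h2
    linear_combination -h2
  have hXm : ∀ a t, X a (t + 2 * (n * q)) = X a t := by
    intro a t
    have h : 2 * (n * q) = 2 * n * q := by ring
    rw [h]
    exact per_mul (X a) (2 * n) (hX.per a) q t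
  have hSm : ∀ a t, S κ A B a (t + 2 * (n * q)) = S κ A B a t := by
    intro a t
    have h : 2 * (n * q) = 2 * n * q := by ring
    rw [h, hSmul, ZMod.natCast_self, zero_mul, add_zero]
  have hS1 : ∀ t, S κ A B (κ (t + 1)) (t + 1) = A (t + 1) := by
    intro t
    unfold S
    rw [if_pos rfl]
  have hS2 : ∀ t, S κ A B (κ (t + 1)) t = A (t + 1) := by
    intro t
    unfold S
    rw [if_neg (hX.kne t).symm, if_pos rfl]
  have hS3 : ∀ a t, a ≠ κ t → a ≠ κ (t + 1) → S κ A B a t = B t := by
    intro a t h1 h2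
    unfold S
    rw [if_neg h1, if_neg h2]
  let X' : Fin 3 → ℕ → Q × ZMod q := fun a t =>
    (X a t, if a = 2 then -S κ A B 2 t else S κ A B a t)
  have hX'S : ∀ a t t', X' a t = X' a t' → X a t = X a t' ∧ S κ A B a t = S κ A B a t' := by
    intro a t t' h
    have h1 : X a t = X a t' := congrArg Prod.fst h
    have h2 : (if a = 2 then -S κ A B 2 t else S κ A B a t) =
      (if a = 2 then -S κ A B 2 t' else S κ A B a t') := congrArg Prod.snd h
    refine ⟨h1, ?_⟩
    by_cases ha : a = 2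
    · rw [if_pos ha, if_pos ha] at h2
      rw [ha]
      exact neg_injective h2
    · rwa [if_neg ha, if_neg ha] at h2
  refine ⟨hn.mul_right q, Nat.mul_pos hn0 hq0, X', κ, ⟨?_, ?_, ?_, ?_, ?_⟩, hkn, ?_⟩
  · intro a t
    show (X a (t + 2 * (n * q)), if a = 2 then -S κ A B 2 (t + 2 * (n * q)) else
      S κ A B a (t + 2 * (n * q))) = (X a t, if a = 2 then -S κ A B 2 t else S κ A B a t)
    rw [hXm, hSm, hSm]
  · intro t
    have h : 2 * (n * q) = 2 * n * q := by ring
    rw [h]
    exact per_mul κ (2 * n) hkp q t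
  · intro t
    show (X 2 t, if (2 : Fin 3) = 2 then -S κ A B 2 t else S κ A B 2 t) =
      (L (X 0 t) (X 1 t), (if (0 : Fin 3) = 2 then -S κ A B 2 t else S κ A B 0 t) +
        (if (1 : Fin 3) = 2 then -S κ A B 2 t else S κ A B 1 t) + f (X 0 t) (X 1 t))
    rw [if_pos rfl, if_neg (by decide), if_neg (by decide), hX.sym t]
    refine Prod.ext rfl ?_
    show -S κ A B 2 t = S κ A B 0 t + S κ A B 1 t + f (X 0 t) (X 1 t)
    have h1 : S κ A B 0 t + S κ A B 1 t + S κ A B 2 t = A t + A (t + 1) + B t :=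
      three q (κ t) (κ (t + 1)) (hX.kne t) (A t) (A (t + 1)) (B t)
    have h2 : B t = -f (X 0 t) (X 1 t) - A t - A (t + 1) := rfl
    linear_combination -h1 - h2
  · exact hX.kne
  · intro t
    show (X (κ (t + 1)) (t + 1), if κ (t + 1) = 2 then -S κ A B 2 (t + 1) else
      S κ A B (κ (t + 1)) (t + 1)) = (X (κ (t + 1)) t, if κ (t + 1) = 2 then -S κ A B 2 t else
      S κ A B (κ (t + 1)) t)
    have h1 : S κ A B (κ (t + 1)) (t + 1) = S κ A B (κ (t + 1)) t := by rw [hS1, hS2]
    refine Prod.ext (hX.edge t) ?_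
    show (if κ (t + 1) = 2 then -S κ A B 2 (t + 1) else S κ A B (κ (t + 1)) (t + 1)) =
      (if κ (t + 1) = 2 then -S κ A B 2 t else S κ A B (κ (t + 1)) t)
    by_cases ha : κ (t + 1) = 2
    · rw [if_pos ha, if_pos ha]
      rw [ha] at h1
      rw [h1]
    · rw [if_neg ha, if_neg ha, h1]
  · intro a t t' h
    obtain ⟨h1, h2⟩ := hX'S a t t' h
    rcases hcl a t t' h1 with h3 | ⟨h3, h4⟩ | ⟨h3, h4⟩ | ⟨h3, h4, h5⟩
    · exact Or.inl (hK a t t' h3 h2.symm)
    · refine Or.inr (Or.inl ⟨h3, hK a (t + 1) t' h4 ?_⟩)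
      rw [← h2, h3, hS1, hS2]
    · have h5 : κ (t' + 1) = a := by
        rw [h3]
        exact per_mod κ (2 * n) hkp _ _ h4
      refine Or.inr (Or.inr (Or.inl ⟨h3, hK a t (t' + 1) h4 ?_⟩))
      rw [h2, ← h5, hS1, hS2]
    · refine Or.inr (Or.inr (Or.inr ⟨h3, h4, hK a (t + n * q) t' ?_ ?_⟩))
      · have h6 : t + n * q ≡ t + n [MOD 2 * n] := by
          rw [hnq, ← add_assoc]
          unfold Nat.ModEq
          rw [Nat.add_mul_mod_self_left]
        exact h5.trans h6.symm
      · have h7 : t + n * q + 1 = t + 1 + n * q := by ring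
        rw [← h2, hS3 a t h3 h4, hS3 a (t + n * q) (by rw [hkn]; exact h3)
          (by rw [h7, hkn]; exact h4), hBn]

end Pool.Agent.W271.NL.OM
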